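import Pool.Agent.Helper98.S3Pg.Defs

/-!
# T5g, (S3'): the keys of `GoodT`
-/

set_option autoImplicit false

namespace Pool.Agent.Helper4.T5g

open Finset Pool.Agent.Helper27.T4 Pool.Agent.Helper84.T5g Pool.Agent.Helper37.T5g
open Pool.Agent.Helper5.ET (mask bb)
open Pool.Agent.Helper30.T5g (pz QF QT RT ez NL BP)
open Pool.Agent.Helper39.T5 Pool.Agent.Helper50.T5 Pool.Agent.Helper57.T5
open Pool.Agent.Helper45.T5g (OK)
open Pool.Agent.Helper54.T5g (Zo ZU Zo_congr cs_congr okey_lt Bd_pos)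
open Pool.Agent.Helper98.S3Pg (GoodT)

variable {m : Sq} {k l' l : ℕ}

theorem OK_lt (hm : m.Ok) {L t : ℕ} (hL : bb 0 ≤ mL m k L) {o : JF → ℕ} (ho : o ∈ OK m k L t)
    (j : JF) : o j < Bd m k L := by
  classical
  obtain ⟨x, hx, rfl⟩ : ∃ x ∈ XJ m k L, okey m k L t x = o := by
    unfold OK at ho
    rw [mem_image] at ho
    exact ho
  exact okey_lt hm hL hx t j

/-- **the keys** -/
theorem goodT_congr (hm : m.Ok) (hl : bb 0 ≤ mL m k l) (hl' : bb 0 ≤ mL m k l')
    (hr : 0 < rL m k l) {w w' : Key → ℕ} {P : Key → Prop}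
    (h : ∀ q, q ∈ keysOf m k l ∨ q ∈ keysOf m k l' → P q → w q = w' q)
    (hP : ∀ a t f o y, P (Key.S a t f o y)) (hV : ∀ a L b, P (Key.V a L b))
    (hg : GoodT m k l' l w) : GoodT m k l' l w' := by
  refine ⟨fun o ho a L => ?_, fun a L => ?_, fun o ho a L => ?_⟩
  · have h1 : (Ys m k l 0).filter (fun y =>
        a ≤ cs m k l 0 w' o y ∧ cs m k l 0 w' o y < a + L) =
        (Ys m k l 0).filter (fun y =>
        a ≤ cs m k l 0 w o y ∧ cs m k l 0 w o y < a + L) := by
      refine Finset.filter_congr (fun y hy => ?_)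
      rw [cs_congr hm hl (w := w) (w' := w') (fun q hq hq1 => h q (Or.inl hq) hq1)
        (fun t f o y => hP l t f o y) hr (OK_lt hm hl ho) hy]
    rw [h1]
    exact hg.new o ho a L
  · rw [← Zo_congr hm hl (w := w) (w' := w') (fun q hq hq1 => h q (Or.inl hq) hq1)
      (fun t f o y => hP l t f o y) (fun L b => hV l L b) (o := 0)
      (fun _ => Bd_pos m k l) 1]
    exact hg.up a L
  · rw [← Zo_congr hm hl' (w := w) (w' := w') (fun q hq hq1 => h q (Or.inr hq) hq1)
      (fun t f o y => hP l' t f o y) (fun L b => hV l' L b) (o := o)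
      (OK_lt hm hl' ho) 0]
    exact hg.low o ho a L

end Pool.Agent.Helper4.T5g
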